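import Pool.Agent.TH112.BL.Defs
import Pool.Agent.TH823.MRS.Fun

/-! BL-J2: short averages of the Liouville function at the positions of a Beatty sequence. -/

set_option autoImplicit false

namespace Pool.Agent.TH503.BL

open Finset Filter Pool.Agent.H376R2.MR
open Pool.Agent.H807R2.Dav (ee ee_zero)

/-- short sums of the Liouville function -/
noncomputable def Ah (h y : ℕ) : ℝ := ∑ s ∈ range h, (lam (y + s) : ℝ)

theorem lam_abs (n : ℕ) : |(lam n : ℝ)| ≤ 1 := by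
  unfold lam
  push_cast
  rw [abs_pow, abs_neg, abs_one, one_pow]

theorem Ah_abs (h y : ℕ) : |Ah h y| ≤ h := by
  unfold Ah
  refine (abs_sum_le_sum_abs _ _).trans ((sum_le_sum fun s _ => lam_abs _).trans ?_)
  simp

theorem Ah_Ico (h y : ℕ) : ∑ n ∈ Ico y (y + h), (lam n : ℝ) = Ah h y := by
  rw [sum_Ico_eq_sum_range, Nat.add_sub_cancel_left]
  rfl

theorem step1 (ε : ℝ) (hε : 0 < ε) : ∃ h₀ : ℕ, ∀ h : ℕ, h₀ ≤ h → ∃ X₁ : ℕ, ∀ X : ℕ, X₁ ≤ X →
    ∑ x ∈ Icc 1 X, |Ah h x| ≤ ε * h * X := by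
  obtain ⟨H₀, X₀, hexp⟩ := Pool.Agent.TH823.MRS.expo_lam ε hε 2 (by norm_num)
  refine ⟨⌈H₀⌉₊, fun h hh => ⟨max X₀ h, fun X hX => ?_⟩⟩
  have hX0 : X₀ ≤ X := (le_max_left _ _).trans hX
  have hhX : h ≤ X := (le_max_right _ _).trans hX
  have hH : H₀ ≤ (h : ℝ) := (Nat.le_ceil H₀).trans (by exact_mod_cast hh)
  let sg : ℕ → ℝ := fun x => if 0 ≤ Ah h x then 1 else -1
  have hsg : ∀ x, |sg x| ≤ 1 := by
    intro x
    simp only [sg]
    split_ifs <;> simp
  have hsgA : ∀ x, sg x * Ah h x = |Ah h x| := by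
    intro x
    simp only [sg]
    split_ifs with h1
    · rw [one_mul, abs_of_nonneg h1]
    · rw [abs_of_neg (not_le.1 h1)]; ring
  let g : ℕ → ℝ := fun x => if 1 ≤ x ∧ x ≤ X then sg x else 0
  have hg : ∀ x, |g x| ≤ 1 := by
    intro x
    simp only [g]
    split_ifs
    · exact hsg x
    · simp
  let Pp : ℕ → ℝ := fun k => ∑ x ∈ range k, g x
  have hPl1 : ∀ a b : ℕ, a ≤ b → |Pp b - Pp a| ≤ (b : ℝ) - a := by
    intro a b hab
    have e : Pp b - Pp a = ∑ x ∈ Ico a b, g x := (sum_Ico_eq_sub _ hab).symm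
    rw [e]
    refine (abs_sum_le_sum_abs _ _).trans ((sum_le_sum fun x _ => hg x).trans ?_)
    rw [sum_const, Nat.card_Ico, nsmul_eq_mul, mul_one, Nat.cast_sub hab]
  have hPl : ∀ a b : ℕ, |Pp a - Pp b| ≤ |(a : ℝ) - b| := by
    intro a b
    rcases le_total a b with h1 | h1
    · rw [abs_sub_comm]
      refine (hPl1 a b h1).trans ?_
      rw [abs_sub_comm]
      exact le_abs_self _
    · exact (hPl1 b a h1).trans (le_abs_self _)
  have hTP : ∀ n : ℕ, ∑ x ∈ Ico (n + 1 - h) (n + 1), g x = Pp (n + 1) - Pp (n + 1 - h) :=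
    fun n => sum_Ico_eq_sub _ (Nat.sub_le _ _)
  let T : ℕ → ℂ := fun n => ((∑ x ∈ Ico (n + 1 - h) (n + 1), g x : ℝ) : ℂ)
  have hT1 : ∀ n : ℕ, ‖T n‖ ≤ (h : ℝ) := by
    intro n
    simp only [T]
    rw [Complex.norm_real, Real.norm_eq_abs, hTP]
    refine (hPl1 _ _ (Nat.sub_le _ _)).trans ?_
    have : n + 1 ≤ (n + 1 - h) + h := by omega
    have h2 : ((n + 1 : ℕ) : ℝ) ≤ ((n + 1 - h : ℕ) : ℝ) + h := by exact_mod_cast this
    linarith
  have hsubl : ∀ n m : ℕ, |((n + 1 - h : ℕ) : ℝ) - ((m + 1 - h : ℕ) : ℝ)| ≤ |(n : ℝ) - m| := by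
    have key : ∀ n m : ℕ, n ≤ m →
        |((n + 1 - h : ℕ) : ℝ) - ((m + 1 - h : ℕ) : ℝ)| ≤ (m : ℝ) - n := by
      intro n m hnm
      have h1 : n + 1 - h ≤ m + 1 - h := by omega
      have h2 : (m + 1 - h) + n ≤ (n + 1 - h) + m := by omega
      have h1' : ((n + 1 - h : ℕ) : ℝ) ≤ ((m + 1 - h : ℕ) : ℝ) := by exact_mod_cast h1
      have h2' : ((m + 1 - h : ℕ) : ℝ) + n ≤ ((n + 1 - h : ℕ) : ℝ) + m := by exact_mod_cast h2
      rw [abs_sub_comm, abs_of_nonneg (by linarith)]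
      linarith
    intro n m
    rcases le_total n m with h1 | h1
    · refine (key n m h1).trans ?_
      rw [abs_sub_comm]
      exact le_abs_self _
    · rw [abs_sub_comm]
      exact (key m n h1).trans (le_abs_self _)
  have hT2 : ∀ n m : ℕ, ‖T n - T m‖ ≤ 2 * |(n : ℝ) - m| := by
    intro n m
    simp only [T]
    rw [← Complex.ofReal_sub, Complex.norm_real, Real.norm_eq_abs, hTP, hTP]
    have h1 := hPl (n + 1) (m + 1)
    have h2 := (hPl (n + 1 - h) (m + 1 - h)).trans (hsubl n m)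
    have h3 : |((n + 1 : ℕ) : ℝ) - ((m + 1 : ℕ) : ℝ)| = |(n : ℝ) - m| := by
      push_cast
      congr 1
      ring
    rw [h3] at h1
    have h4 : Pp (n + 1) - Pp (n + 1 - h) - (Pp (m + 1) - Pp (m + 1 - h)) =
      (Pp (n + 1) - Pp (m + 1)) - (Pp (n + 1 - h) - Pp (m + 1 - h)) := by ring
    rw [h4]
    exact (abs_sub _ _).trans (by linarith)
  have hT3 : ∀ n : ℕ, 3 * X < n → T n = 0 := by
    intro n hn
    simp only [T]
    rw [sum_eq_zero, Complex.ofReal_zero]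
    intro x hx
    rw [mem_Ico] at hx
    simp only [g]
    rw [if_neg]
    omega
  have hmain := hexp X hX0 h hH (by exact_mod_cast hhX) T hT1 hT2 hT3 0
  have hTx : ∀ n, ∑ x ∈ Ico (n + 1 - h) (n + 1), g x =
      ∑ x ∈ Icc 1 X, if x ≤ n ∧ n < x + h then sg x else 0 := by
    intro n
    simp only [g]
    rw [← sum_filter, ← sum_filter]
    refine sum_congr ?_ fun _ _ => rfl
    ext x
    rw [mem_filter, mem_filter, mem_Ico, mem_Icc]
    omega
  have hid : ∑ n ∈ Icc 1 (3 * X), (lam n : ℂ) * ee ((n : ℝ) * 0) * T n =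
      ((∑ x ∈ Icc 1 X, |Ah h x| : ℝ) : ℂ) := by
    have e1 : ∑ n ∈ Icc 1 (3 * X), (lam n : ℂ) * ee ((n : ℝ) * 0) * T n =
        ((∑ n ∈ Icc 1 (3 * X), (lam n : ℝ) *
          ∑ x ∈ Icc 1 X, (if x ≤ n ∧ n < x + h then sg x else 0) : ℝ) : ℂ) := by
      rw [Complex.ofReal_sum]
      refine sum_congr rfl fun n _ => ?_
      simp only [T]
      rw [hTx, mul_zero, ee_zero, mul_one, Complex.ofReal_mul]
      congr 1
    rw [e1]
    congr 1
    simp_rw [mul_sum]
    rw [sum_comm]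
    refine sum_congr rfl fun x hx => ?_
    rw [mem_Icc] at hx
    have e2 : ∀ n ∈ Icc 1 (3 * X), (lam n : ℝ) * (if x ≤ n ∧ n < x + h then sg x else 0) =
        if x ≤ n ∧ n < x + h then sg x * (lam n : ℝ) else 0 := by
      intro n _
      split_ifs
      · ring
      · ring
    rw [sum_congr rfl e2, ← sum_filter]
    have e3 : (Icc 1 (3 * X)).filter (fun n => x ≤ n ∧ n < x + h) = Ico x (x + h) := by
      ext n
      rw [mem_filter, mem_Icc, mem_Ico]
      omega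
    rw [e3, ← mul_sum, Ah_Ico, hsgA]
  rw [hid, Complex.norm_real, Real.norm_eq_abs] at hmain
  exact (le_abs_self _).trans hmain

theorem step2 {ε : ℝ} (hε : 0 ≤ ε) {B : ℕ → ℝ} (hB0 : ∀ y, 0 ≤ B y) (hB1 : ∀ y, B y ≤ 1) {X₁ : ℕ}
    (hS : ∀ Y : ℕ, X₁ ≤ Y → ∑ y ∈ Icc 1 Y, B y ≤ ε * Y) (Y : ℕ) (hY : 1 ≤ Y) :
    ∑ y ∈ Icc 1 Y, B y / y ≤ (∑ y ∈ Icc 1 Y, B y) / Y + (min Y X₁ : ℕ) +
      ε * ∑ y ∈ Icc 1 Y, ((y : ℝ))⁻¹ := by
  induction Y, hY using Nat.le_induction with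
  | base =>
    simp only [Icc_self, sum_singleton, Nat.cast_one, div_one, inv_one, mul_one]
    have : (0 : ℝ) ≤ (min 1 X₁ : ℕ) := Nat.cast_nonneg _
    linarith
  | succ Y hY ih =>
    have hY0 : (0 : ℝ) < Y := by exact_mod_cast hY
    rw [sum_Icc_succ_top (by omega), sum_Icc_succ_top (by omega), sum_Icc_succ_top (by omega)]
    set S := ∑ y ∈ Icc 1 Y, B y with hSdef
    have hS0 : 0 ≤ S := sum_nonneg fun y _ => hB0 y
    have hSY : S ≤ Y := by
      refine (sum_le_sum fun y _ => hB1 y).trans ?_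
      simp
    have e1 : S / Y = S / ((Y : ℝ) + 1) + S / (Y * ((Y : ℝ) + 1)) := by
      field_simp
    have e2 : (S + B (Y + 1)) / ((Y + 1 : ℕ) : ℝ) = S / ((Y : ℝ) + 1) + B (Y + 1) / ((Y + 1 : ℕ) : ℝ) := by
      push_cast
      rw [add_div]
    have e3 : S / (Y * ((Y : ℝ) + 1)) + (min Y X₁ : ℕ) ≤
        (min (Y + 1) X₁ : ℕ) + ε * (((Y + 1 : ℕ) : ℝ))⁻¹ := by
      push_cast
      rcases Nat.lt_or_ge Y X₁ with h1 | h1
      · have m1 : min (Y : ℝ) X₁ = Y := min_eq_left (by exact_mod_cast h1.le)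
        have m2 : min ((Y : ℝ) + 1) X₁ = Y + 1 := min_eq_left (by exact_mod_cast h1)
        rw [m1, m2]
        have h2 : S / (Y * ((Y : ℝ) + 1)) ≤ 1 := by
          rw [div_le_one (by positivity)]
          nlinarith
        have h3 : 0 ≤ ε * ((Y : ℝ) + 1)⁻¹ := by positivity
        linarith
      · have m1 : min (Y : ℝ) X₁ = X₁ := min_eq_right (by exact_mod_cast h1)
        have m2 : min ((Y : ℝ) + 1) X₁ = X₁ := min_eq_right (by exact_mod_cast (by omega : X₁ ≤ Y + 1))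
        rw [m1, m2]
        have h2 : S / (Y * ((Y : ℝ) + 1)) ≤ ε * ((Y : ℝ) + 1)⁻¹ := by
          rw [div_le_iff₀ (by positivity)]
          have := hS Y h1
          have e : ε * ((Y : ℝ) + 1)⁻¹ * (Y * ((Y : ℝ) + 1)) = ε * Y := by field_simp
          rw [e]
          exact this
        linarith
    rw [e2, mul_add]
    rw [e1] at ih
    linarith

theorem step2' {ε : ℝ} (hε : 0 ≤ ε) {B : ℕ → ℝ} (hB0 : ∀ y, 0 ≤ B y) (hB1 : ∀ y, B y ≤ 1) {X₁ : ℕ}
    (hS : ∀ Y : ℕ, X₁ ≤ Y → ∑ y ∈ Icc 1 Y, B y ≤ ε * Y) (Y : ℕ) (hY : 1 ≤ Y) :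
    ∑ y ∈ Icc 1 Y, B y / y ≤ 1 + X₁ + ε * (1 + Real.log Y) := by
  have h1 := step2 hε hB0 hB1 hS Y hY
  have hY0 : (0 : ℝ) < Y := by exact_mod_cast hY
  have h2 : (∑ y ∈ Icc 1 Y, B y) / Y ≤ 1 := by
    rw [div_le_one hY0]
    refine (sum_le_sum fun y _ => hB1 y).trans ?_
    simp
  have h3 : ((min Y X₁ : ℕ) : ℝ) ≤ X₁ := by exact_mod_cast min_le_right _ _
  have h4 : ∑ y ∈ Icc 1 Y, ((y : ℝ))⁻¹ ≤ 1 + Real.log Y := by
    have := harmonic_le_one_add_log Y
    rw [harmonic_eq_sum_Icc] at this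
    push_cast at this
    exact this
  have h5 := mul_le_mul_of_nonneg_left h4 hε
  linarith

theorem Ah_succ (p y : ℕ) : |Ah p (y + 1) - Ah p y| ≤ 2 := by
  have h1 : Ah p y + (lam (y + p) : ℝ) = (lam y : ℝ) + Ah p (y + 1) := by
    unfold Ah
    rw [← sum_range_succ (fun s => (lam (y + s) : ℝ)), sum_range_succ' (fun s => (lam (y + s) : ℝ)),
      add_zero, add_comm]
    congr 1
    refine sum_congr rfl fun s _ => ?_
    rw [show y + (s + 1) = y + 1 + s by ring]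
  have h2 : Ah p (y + 1) - Ah p y = (lam (y + p) : ℝ) - lam y := by linarith
  rw [h2]
  refine (abs_sub _ _).trans ?_
  have := lam_abs (y + p)
  have := lam_abs y
  linarith

theorem Ah_add (p y s : ℕ) : |Ah p (y + s) - Ah p y| ≤ 2 * s := by
  induction s with
  | zero => simp
  | succ s ih =>
    have h1 := Ah_succ p (y + s)
    have e : Ah p (y + (s + 1)) - Ah p y = (Ah p (y + s + 1) - Ah p (y + s)) + (Ah p (y + s) - Ah p y) := by
      rw [← add_assoc]; ring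
    rw [e]
    refine (abs_add_le _ _).trans ?_
    push_cast
    linarith

theorem Ah_swap (h p y : ℕ) : ∑ t ∈ range p, Ah h (y + t) = ∑ s ∈ range h, Ah p (y + s) := by
  unfold Ah
  rw [sum_comm]
  refine sum_congr rfl fun s _ => sum_congr rfl fun t _ => ?_
  rw [show y + t + s = y + s + t by ring]

theorem step3 {h p x : ℕ} (hh : 1 ≤ h) (hp : 1 ≤ p) (hx : p ≤ x) :
    |∑ s ∈ range p, (lam (x - s) : ℝ)| / p ≤
      (∑ z ∈ Ico (x - p + 1) (x + 1), |Ah h z| / h) / p + 2 * h / p := by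
  have hp0 : (0 : ℝ) < p := by exact_mod_cast hp
  have hh0 : (0 : ℝ) < h := by exact_mod_cast hh
  have e1 : ∑ s ∈ range p, (lam (x - s) : ℝ) = Ah p (x - p + 1) := by
    unfold Ah
    rw [← sum_range_reflect (fun s => (lam (x - p + 1 + s) : ℝ))]
    refine sum_congr rfl fun s hs => ?_
    rw [mem_range] at hs
    rw [show x - p + 1 + (p - 1 - s) = x - s by omega]
  rw [e1, ← add_div]
  refine div_le_div_of_nonneg_right ?_ hp0.le
  set y := x - p + 1 with hy
  have e2 : Ico y (x + 1) = Ico y (y + p) := by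
    rw [hy]; congr 1; omega
  have e3 : ∑ z ∈ Ico y (x + 1), |Ah h z| / h = (∑ t ∈ range p, |Ah h (y + t)|) / h := by
    rw [e2, sum_Ico_eq_sum_range, Nat.add_sub_cancel_left, sum_div]
  rw [e3]
  have h1 : |(h : ℝ) * Ah p y - ∑ t ∈ range p, Ah h (y + t)| ≤ 2 * h * h := by
    rw [Ah_swap]
    have e4 : (h : ℝ) * Ah p y - ∑ s ∈ range h, Ah p (y + s) = ∑ s ∈ range h, (Ah p y - Ah p (y + s)) := by
      rw [sum_sub_distrib, sum_const, card_range, nsmul_eq_mul]
    rw [e4]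
    refine (abs_sum_le_sum_abs _ _).trans ?_
    have : ∀ s ∈ range h, |Ah p y - Ah p (y + s)| ≤ 2 * h := by
      intro s hs
      rw [mem_range] at hs
      rw [abs_sub_comm]
      refine (Ah_add p y s).trans ?_
      have : (s : ℝ) ≤ h := by exact_mod_cast hs.le
      linarith
    refine (sum_le_sum this).trans ?_
    rw [sum_const, card_range, nsmul_eq_mul]
    nlinarith
  have h2 : |∑ t ∈ range p, Ah h (y + t)| ≤ ∑ t ∈ range p, |Ah h (y + t)| := abs_sum_le_sum_abs _ _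
  have h3 : (h : ℝ) * |Ah p y| ≤ ∑ t ∈ range p, |Ah h (y + t)| + 2 * h * h := by
    have e5 : (h : ℝ) * |Ah p y| = |(h : ℝ) * Ah p y| := by
      rw [abs_mul, abs_of_pos hh0]
    rw [e5]
    have := abs_sub_abs_le_abs_sub ((h : ℝ) * Ah p y) (∑ t ∈ range p, Ah h (y + t))
    linarith
  have h4 : |Ah p y| = ((h : ℝ) * |Ah p y|) / h := by field_simp
  rw [h4, div_add' _ _ _ hh0.ne']
  refine div_le_div_of_nonneg_right ?_ hh0.le
  linarith

theorem card_int (S : Finset ℕ) (a l : ℝ) (hl : 0 ≤ l) (h : ∀ n ∈ S, a ≤ n ∧ (n : ℝ) < a + l) :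
    (S.card : ℝ) ≤ l + 1 := by
  have h1 : S ⊆ Icc ⌈a⌉₊ (⌈a⌉₊ + ⌊l⌋₊) := by
    intro n hn
    obtain ⟨h2, h3⟩ := h n hn
    rw [mem_Icc]
    refine ⟨Nat.ceil_le.2 h2, ?_⟩
    have h4 : ⌈a⌉₊ ≤ n := Nat.ceil_le.2 h2
    have h5 : a ≤ ⌈a⌉₊ := Nat.le_ceil a
    have h6 : ((n - ⌈a⌉₊ : ℕ) : ℝ) ≤ l := by
      rw [Nat.cast_sub h4]; linarith
    have h7 := Nat.le_floor h6
    omega
  have h2 := card_le_card h1
  rw [Nat.card_Icc] at h2
  have h3 : S.card ≤ ⌊l⌋₊ + 1 := by omega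
  have h4 : (S.card : ℝ) ≤ ⌊l⌋₊ + 1 := by exact_mod_cast h3
  have h5 := Nat.floor_le hl
  linarith

theorem step4 {α : ℝ} (hα : 0 < α) {h p : ℕ} (hh : 1 ≤ h) (hp : 1 ≤ p) (N : ℕ) :
    ∑ n ∈ Icc 1 N, (1 / (n : ℝ)) *
        (|∑ s ∈ range p, ((lam (⌊α * ((p * n : ℕ) : ℝ)⌋₊ - s) : ℤ) : ℝ)| / p) ≤
      (1 / α + 1) + 2 * h / p * (1 + Real.log N) +
        (1 + α) * ∑ z ∈ Icc 1 ⌊α * ((p * N : ℕ) : ℝ)⌋₊, (|Ah h z| / h) / z := by
  have hp0 : (0 : ℝ) < p := by exact_mod_cast hp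
  have hh0 : (0 : ℝ) < h := by exact_mod_cast hh
  set X : ℕ → ℕ := fun n => ⌊α * ((p * n : ℕ) : ℝ)⌋₊ with hX
  set Y := X N with hY
  set B : ℕ → ℝ := fun z => |Ah h z| / h with hB
  have hB0 : ∀ z, 0 ≤ B z := fun z => by simp only [hB]; positivity
  have hXY : ∀ n ∈ Icc 1 N, X n ≤ Y := by
    intro n hn
    rw [mem_Icc] at hn
    refine Nat.floor_le_floor ?_
    have : ((p * n : ℕ) : ℝ) ≤ ((p * N : ℕ) : ℝ) := by
      exact_mod_cast Nat.mul_le_mul_left p hn.2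
    exact mul_le_mul_of_nonneg_left this hα.le
  -- pointwise bound
  have hpt : ∀ n ∈ Icc 1 N, (1 / (n : ℝ)) *
        (|∑ s ∈ range p, ((lam (X n - s) : ℤ) : ℝ)| / p) ≤
      (if (n : ℝ) < 1 / α then 1 else 0) + 2 * h / p * ((n : ℝ))⁻¹ +
        ∑ z ∈ Icc 1 Y, (if z ≤ X n ∧ X n < z + p then α * (B z / z) else 0) := by
    intro n hn
    have hn1 : 1 ≤ n := (mem_Icc.1 hn).1
    have hn0 : (0 : ℝ) < n := by exact_mod_cast hn1
    have hinv : (1 / (n : ℝ)) ≤ 1 := by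
      rw [div_le_one hn0]; exact_mod_cast hn1
    have hz0 : 0 ≤ ∑ z ∈ Icc 1 Y, (if z ≤ X n ∧ X n < z + p then α * (B z / z) else 0) := by
      refine sum_nonneg fun z _ => ?_
      split_ifs
      · have := hB0 z
        positivity
      · exact le_rfl
    have hh1 : 0 ≤ 2 * h / p * ((n : ℝ))⁻¹ := by positivity
    rcases Nat.lt_or_ge (X n) p with hlt | hge
    · have h1 : (n : ℝ) < 1 / α := by
        have h2 : α * ((p * n : ℕ) : ℝ) < p := by
          rw [← Nat.floor_lt (by positivity)]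
          exact hlt
        push_cast at h2
        rw [lt_div_iff₀ hα]
        have h3 : α * n * p < 1 * p := by linarith
        have := lt_of_mul_lt_mul_right h3 hp0.le
        linarith
      rw [if_pos h1]
      have h4 : |∑ s ∈ range p, ((lam (X n - s) : ℤ) : ℝ)| / p ≤ 1 := by
        rw [div_le_one hp0]
        refine (abs_sum_le_sum_abs _ _).trans ((sum_le_sum fun s _ => lam_abs _).trans ?_)
        simp
      have h5 : (1 / (n : ℝ)) * (|∑ s ∈ range p, ((lam (X n - s) : ℤ) : ℝ)| / p) ≤ 1 * 1 :=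
        mul_le_mul hinv h4 (by positivity) (by norm_num)
      linarith
    · have h1 := step3 (h := h) hh hp hge
      have h2 : (1 / (n : ℝ)) * (|∑ s ∈ range p, ((lam (X n - s) : ℤ) : ℝ)| / p) ≤
          (1 / (n : ℝ)) * ((∑ z ∈ Ico (X n - p + 1) (X n + 1), |Ah h z| / h) / p + 2 * h / p) :=
        mul_le_mul_of_nonneg_left h1 (by positivity)
      have h3 : (1 / (n : ℝ)) * ((∑ z ∈ Ico (X n - p + 1) (X n + 1), |Ah h z| / h) / p) ≤
          ∑ z ∈ Icc 1 Y, (if z ≤ X n ∧ X n < z + p then α * (B z / z) else 0) := by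
        have h4 : Ico (X n - p + 1) (X n + 1) ⊆
            (Icc 1 Y).filter (fun z => z ≤ X n ∧ X n < z + p) := by
          intro z hz
          have := hXY n hn
          rw [mem_Ico] at hz
          rw [mem_filter, mem_Icc]
          omega
        rw [← sum_filter]
        have h5 : (1 / (n : ℝ)) * ((∑ z ∈ Ico (X n - p + 1) (X n + 1), |Ah h z| / h) / p) =
            ∑ z ∈ Ico (X n - p + 1) (X n + 1), (1 / (n : ℝ)) * (B z / p) := by
          rw [sum_div, mul_sum]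
        rw [h5]
        have h6 : ∀ z ∈ Ico (X n - p + 1) (X n + 1), (1 / (n : ℝ)) * (B z / p) ≤ α * (B z / z) := by
          intro z hz
          rw [mem_Ico] at hz
          have hz1 : 1 ≤ z := by omega
          have hz0' : (0 : ℝ) < z := by exact_mod_cast hz1
          have h7 : (z : ℝ) ≤ α * (p * n) := by
            have h8 : ((X n : ℕ) : ℝ) ≤ α * ((p * n : ℕ) : ℝ) := Nat.floor_le (by positivity)
            have h9 : (z : ℝ) ≤ (X n : ℕ) := by exact_mod_cast (by omega : z ≤ X n)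
            push_cast at h8
            linarith
          have h8 : (1 / (n : ℝ)) * (B z / p) = B z * (1 / (n * p)) := by field_simp
          have h9 : α * (B z / z) = B z * (α / z) := by ring
          rw [h8, h9]
          refine mul_le_mul_of_nonneg_left ?_ (hB0 z)
          rw [div_le_div_iff₀ (by positivity) hz0']
          linarith
        refine (sum_le_sum h6).trans ?_
        refine sum_le_sum_of_subset_of_nonneg h4 fun z _ _ => ?_
        have := hB0 z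
        positivity
      have h10 : (0 : ℝ) ≤ (if (n : ℝ) < 1 / α then 1 else 0) := by split_ifs <;> norm_num
      have h11 : (1 / (n : ℝ)) * (2 * h / p) = 2 * h / p * ((n : ℝ))⁻¹ := by ring
      rw [mul_add] at h2
      linarith
  refine (sum_le_sum hpt).trans ?_
  rw [sum_add_distrib, sum_add_distrib]
  have g1 : ∑ n ∈ Icc 1 N, (if (n : ℝ) < 1 / α then (1 : ℝ) else 0) ≤ 1 / α + 1 := by
    rw [← sum_filter, sum_const, nsmul_eq_mul, mul_one]
    refine card_int _ 0 (1 / α) (by positivity) ?_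
    intro n hn
    rw [mem_filter] at hn
    exact ⟨by positivity, by linarith [hn.2]⟩
  have g2 : ∑ n ∈ Icc 1 N, 2 * h / p * ((n : ℝ))⁻¹ ≤ 2 * h / p * (1 + Real.log N) := by
    rw [← mul_sum]
    refine mul_le_mul_of_nonneg_left ?_ (by positivity)
    have := harmonic_le_one_add_log N
    rw [harmonic_eq_sum_Icc] at this
    push_cast at this
    exact this
  have g3 : ∑ n ∈ Icc 1 N, ∑ z ∈ Icc 1 Y, (if z ≤ X n ∧ X n < z + p then α * (B z / z) else 0) ≤
      (1 + α) * ∑ z ∈ Icc 1 Y, B z / z := by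
    rw [sum_comm, mul_sum]
    refine sum_le_sum fun z hz => ?_
    have hz1 : 1 ≤ z := (mem_Icc.1 hz).1
    have hz0 : (0 : ℝ) < z := by exact_mod_cast hz1
    rw [← sum_filter, sum_const, nsmul_eq_mul]
    have hc : (((Icc 1 N).filter fun n => z ≤ X n ∧ X n < z + p).card : ℝ) ≤ 1 / α + 1 := by
      refine card_int _ (z / (α * p)) (1 / α) (by positivity) ?_
      intro n hn
      rw [mem_filter] at hn
      obtain ⟨_, h1, h2⟩ := hn
      have h3 : (z : ℝ) ≤ α * (p * n) := by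
        have h8 : ((X n : ℕ) : ℝ) ≤ α * ((p * n : ℕ) : ℝ) := Nat.floor_le (by positivity)
        have h9 : (z : ℝ) ≤ (X n : ℕ) := by exact_mod_cast h1
        push_cast at h8
        linarith
      have h4 : α * (p * n) < z + p := by
        have h5 : α * ((p * n : ℕ) : ℝ) < ((z + p : ℕ) : ℝ) := by
          rw [← Nat.floor_lt (by positivity)]
          exact h2
        push_cast at h5
        exact h5
      refine ⟨?_, ?_⟩
      · rw [div_le_iff₀ (by positivity)]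
        linarith
      · have e : (z : ℝ) / (α * p) + 1 / α = (z + p) / (α * p) := by
          field_simp
        rw [e, lt_div_iff₀ (by positivity)]
        linarith
    have h6 : 0 ≤ α * (B z / z) := by
      have := hB0 z
      positivity
    calc _ ≤ (1 / α + 1) * (α * (B z / z)) := mul_le_mul_of_nonneg_right hc h6
      _ = (1 + α) * (B z / z) := by field_simp
  linarith

theorem mr_beatty (α : ℝ) (hα : 0 < α) (ε : ℝ) (hε : 0 < ε) :
    ∃ p₀ : ℕ, ∀ p : ℕ, p₀ ≤ p → ∃ N₀ : ℕ, ∀ N : ℕ, N₀ ≤ N →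
      ∑ n ∈ Icc 1 N, (1 / (n : ℝ)) *
        (|∑ s ∈ range p, ((lam (⌊α * ((p * n : ℕ) : ℝ)⌋₊ - s) : ℤ) : ℝ)| / p) ≤
      ε * Real.log N := by
  set ε' : ℝ := ε / (4 * (1 + α)) with hε'
  have hε'0 : 0 < ε' := by positivity
  obtain ⟨h₀, hh⟩ := step1 ε' hε'0
  set h : ℕ := max h₀ 1 with hhd
  have hh1 : 1 ≤ h := le_max_right _ _
  have hh0 : (0 : ℝ) < h := by exact_mod_cast hh1
  obtain ⟨X₁, hX⟩ := hh h (le_max_left _ _)
  set B : ℕ → ℝ := fun z => |Ah h z| / h with hB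
  have hB0 : ∀ z, 0 ≤ B z := fun z => by simp only [hB]; positivity
  have hB1 : ∀ z, B z ≤ 1 := fun z => by
    simp only [hB]
    rw [div_le_one hh0]
    exact Ah_abs h z
  have hS : ∀ Y : ℕ, X₁ ≤ Y → ∑ y ∈ Icc 1 Y, B y ≤ ε' * Y := by
    intro Y hY
    simp only [hB]
    rw [← sum_div, div_le_iff₀ hh0]
    have := hX Y hY
    linarith
  refine ⟨max 1 ⌈8 * h / ε⌉₊, fun p hp => ?_⟩
  have hp1 : 1 ≤ p := (le_max_left _ _).trans hp
  have hp0 : (0 : ℝ) < p := by exact_mod_cast hp1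
  have hph : 2 * h / p ≤ ε / 4 := by
    have h1 : 8 * h / ε ≤ p := (Nat.le_ceil _).trans (by exact_mod_cast (le_max_right _ _).trans hp)
    rw [div_le_iff₀ hε] at h1
    rw [div_le_iff₀ hp0]
    linarith
  set C₂ : ℝ := (1 / α + 1) + 2 * h / p + (1 + α) * (1 + X₁ + ε' * (1 + |Real.log (α * p)|)) with hC₂
  obtain ⟨N₀, hN₀⟩ := exists_nat_gt (Real.exp (2 * C₂ / ε))
  refine ⟨max 1 N₀, fun N hN => ?_⟩
  have hN1 : 1 ≤ N := (le_max_left _ _).trans hN
  have hN0 : (0 : ℝ) < N := by exact_mod_cast hN1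
  have hlogN : 0 ≤ Real.log N := Real.log_nonneg (by exact_mod_cast hN1)
  have hC : C₂ ≤ ε / 2 * Real.log N := by
    have h1 : Real.exp (2 * C₂ / ε) < N := hN₀.trans_le (by exact_mod_cast (le_max_right _ _).trans hN)
    have h2 := (Real.lt_log_iff_exp_lt hN0).2 h1
    rw [div_lt_iff₀ hε] at h2
    linarith
  refine (step4 hα hh1 hp1 N).trans ?_
  have hL : ∑ z ∈ Icc 1 ⌊α * ((p * N : ℕ) : ℝ)⌋₊, (|Ah h z| / h) / z ≤
      1 + X₁ + ε' * (1 + (|Real.log (α * p)| + Real.log N)) := by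
    rcases Nat.eq_zero_or_pos ⌊α * ((p * N : ℕ) : ℝ)⌋₊ with h0 | h0
    · rw [h0]
      simp only [Icc_eq_empty_of_lt (by norm_num : (0 : ℕ) < 1), sum_empty]
      positivity
    · have h1 := step2' hε'0.le hB0 hB1 hS _ h0
      refine h1.trans ?_
      have h2 : Real.log (⌊α * ((p * N : ℕ) : ℝ)⌋₊ : ℝ) ≤ |Real.log (α * p)| + Real.log N := by
        have h3 : ((⌊α * ((p * N : ℕ) : ℝ)⌋₊ : ℕ) : ℝ) ≤ (α * p) * N := by
          have := Nat.floor_le (by positivity : 0 ≤ α * ((p * N : ℕ) : ℝ))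
          push_cast at this ⊢
          linarith
        have h4 := Real.log_le_log (by exact_mod_cast h0) h3
        rw [Real.log_mul (by positivity) hN0.ne'] at h4
        have h5 := le_abs_self (Real.log (α * p))
        linarith
      have h6 := mul_le_mul_of_nonneg_left h2 hε'0.le
      linarith
  have hL2 := mul_le_mul_of_nonneg_left hL (by positivity : 0 ≤ 1 + α)
  have he : (1 + α) * ε' = ε / 4 := by
    rw [hε']
    field_simp
  have e5 : (1 + α) * (1 + X₁ + ε' * (1 + (|Real.log (α * p)| + Real.log N))) =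
      (1 + α) * (1 + X₁ + ε' * (1 + |Real.log (α * p)|)) + (1 + α) * ε' * Real.log N := by ring
  rw [e5, he] at hL2
  have h7 : 2 * h / p * Real.log N ≤ ε / 4 * Real.log N := mul_le_mul_of_nonneg_right hph hlogN
  have h8 : 2 * (h : ℝ) / p * (1 + Real.log N) = 2 * h / p + 2 * h / p * Real.log N := by ring
  rw [h8]
  linarith

end Pool.Agent.TH503.BL
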